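import Mathlib

/-!
# Bounded induced saturation for unions of chains of unequal lengths

For positive integers `i_1 ≥ ... ≥ i_m` with `i_1 > i_m` we prove that
`sat*(n, C_{i_1} + ... + C_{i_m})` is bounded by a constant independent of `n`.

The construction.  Let `k = i_1` be the largest length, `s` the number of indices with `i_j = k`.
Split the ground set into `B0` (of size `s - 1`), `B1` (large but of bounded size) and the rest `R`,
and put `B = B0 ∪ B1`.

* `Fh` consists of the sets `F` with `F ⊆ B` or `R ⊆ F` whose rank `|F ∩ B| + [R ⊆ F]` lies in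
  a window of `k - 1` consecutive integers; so `Fh` has no chain with `k` elements.
* `Fw` consists of the singletons `{x}`, `x ∈ B0`, the set `B0ᶜ`, and the sets `B0ᶜ ∪ {x}`, `x ∈ B0`.

Any `s` pairwise incomparable `k`-chains in `Fh ∪ Fw` give an antichain of size `s` in `Fw`, which
must be `{ {x} : x ∈ B0 } ∪ { B0ᶜ }`, and this is a maximal antichain of the whole cube; hence
`Fh ∪ Fw` contains no copy of the poset.  Every set `G` which splits `R` creates a copy.
-/

set_option autoImplicit false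

open Finset

namespace Pool.Agent.Results.MP_80cf42_co.UnequalChains

/-- `𝒢` is an (induced) copy of `P`: there is a bijection `b : P → 𝒢` with
`p ≤ q ↔ b p ⊆ b q`. -/
def IsInducedCopy (P : Type) [LE P] {n : ℕ} (𝒢 : Finset (Finset (Fin n))) : Prop :=
  ∃ b : P ≃ 𝒢, ∀ p q : P, p ≤ q ↔ (b p : Finset (Fin n)) ⊆ (b q : Finset (Fin n))

/-- `𝓕` contains an induced copy of `P`. -/
def ContainsInducedCopy (P : Type) [LE P] {n : ℕ} (𝓕 : Finset (Finset (Fin n))) : Prop :=
  ∃ 𝒢 : Finset (Finset (Fin n)), 𝒢 ⊆ 𝓕 ∧ IsInducedCopy P 𝒢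

/-- `𝓕 ⊆ 2^[n]` is induced `P`-saturated. -/
def InducedSaturated (P : Type) [LE P] {n : ℕ} (𝓕 : Finset (Finset (Fin n))) : Prop :=
  ¬ ContainsInducedCopy P 𝓕 ∧
    ∀ G : Finset (Fin n), G ∉ 𝓕 → ContainsInducedCopy P (insert G 𝓕)

/-- `sat*(n, P)`: the least size of an induced `P`-saturated family in `2^[n]`. -/
noncomputable def satStar (n : ℕ) (P : Type) [LE P] : ℕ :=
  sInf {s : ℕ | ∃ 𝓕 : Finset (Finset (Fin n)), InducedSaturated P 𝓕 ∧ 𝓕.card = s}

section general

set_option linter.unusedSectionVars false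

variable {α : Type*} [DecidableEq α] [Fintype α]

/-- chains in an interval, indexed by the cardinality of the `B`-part -/
lemma exists_chain (B Lo Hi : Finset α) (h : Lo ⊆ Hi) (hB : Hi \ Lo ⊆ B) :
    ∃ X : ℕ → Finset α, Monotone X ∧ (∀ r, Lo ⊆ X r ∧ X r ⊆ Hi) ∧
      ∀ r, (Lo ∩ B).card ≤ r → r ≤ (Hi ∩ B).card → (X r ∩ B).card = r := by
  classical
  set l := (Hi \ Lo).toList with hl
  have hnd : l.Nodup := Finset.nodup_toList _
  have hmem : ∀ x, x ∈ l ↔ x ∈ Hi \ Lo := fun x => Finset.mem_toList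
  have hlen : l.length = (Hi \ Lo).card := Finset.length_toList _
  refine ⟨fun r => Lo ∪ (l.take (r - (Lo ∩ B).card)).toFinset, ?_, ?_, ?_⟩
  · intro a b hab
    apply Finset.union_subset_union (Finset.Subset.refl _)
    intro x hx
    rw [List.mem_toFinset] at hx ⊢
    exact (List.take_subset_take_left l (by omega)) hx
  · intro r
    refine ⟨Finset.subset_union_left, Finset.union_subset h ?_⟩
    intro x hx
    rw [List.mem_toFinset] at hx
    have := List.mem_of_mem_take hx
    rw [hmem, Finset.mem_sdiff] at this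
    exact this.1
  · intro r hr1 hr2
    have hHi : (Hi ∩ B).card = (Lo ∩ B).card + (Hi \ Lo).card := by
      rw [← Finset.card_union_of_disjoint]
      · congr 1
        ext x
        simp only [Finset.mem_inter, Finset.mem_union, Finset.mem_sdiff]
        constructor
        · rintro ⟨h1, h2⟩
          by_cases hx : x ∈ Lo
          · exact Or.inl ⟨hx, h2⟩
          · exact Or.inr ⟨h1, hx⟩
        · rintro (⟨h1, h2⟩ | ⟨h1, h2⟩)
          · exact ⟨h h1, h2⟩
          · exact ⟨h1, hB (Finset.mem_sdiff.2 ⟨h1, h2⟩)⟩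
      · rw [Finset.disjoint_left]
        intro x hx hx2
        rw [Finset.mem_inter] at hx
        rw [Finset.mem_sdiff] at hx2
        exact hx2.2 hx.1
    have e1 : (Lo ∪ (l.take (r - (Lo ∩ B).card)).toFinset) ∩ B
        = (Lo ∩ B) ∪ (l.take (r - (Lo ∩ B).card)).toFinset := by
      ext x
      simp only [Finset.mem_inter, Finset.mem_union, List.mem_toFinset]
      constructor
      · rintro ⟨h1 | h1, h2⟩
        · exact Or.inl ⟨h1, h2⟩
        · exact Or.inr h1
      · rintro (h1 | h1)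
        · exact ⟨Or.inl h1.1, h1.2⟩
        · exact ⟨Or.inr h1, hB ((hmem x).1 (List.mem_of_mem_take h1))⟩
    show ((Lo ∪ (l.take (r - (Lo ∩ B).card)).toFinset) ∩ B).card = r
    rw [e1, Finset.card_union_of_disjoint, List.toFinset_card_of_nodup (hnd.sublist (List.take_sublist _ _)),
      List.length_take, hlen]
    · omega
    · rw [Finset.disjoint_left]
      intro x hx hx2
      rw [Finset.mem_inter] at hx
      rw [List.mem_toFinset] at hx2
      have := (hmem x).1 (List.mem_of_mem_take hx2)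
      rw [Finset.mem_sdiff] at this
      exact this.2 hx.1

/-- the layer family -/
def Fh (B : Finset α) (c k : ℕ) : Finset (Finset α) :=
  univ.filter (fun F => (F ⊆ B ∧ c ≤ (F ∩ B).card ∧ (F ∩ B).card + 2 ≤ c + k) ∨
    (Bᶜ ⊆ F ∧ c ≤ (F ∩ B).card + 1 ∧ (F ∩ B).card + 3 ≤ c + k))

/-- the hub family -/
def Fw (B0 : Finset α) : Finset (Finset α) :=
  (B0.image (fun x => ({x} : Finset α)) ∪ {B0ᶜ}) ∪ B0.image (fun x => insert x B0ᶜ)

lemma mem_Fh {B : Finset α} {c k : ℕ} {F : Finset α} :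
    F ∈ Fh B c k ↔ (F ⊆ B ∧ c ≤ (F ∩ B).card ∧ (F ∩ B).card + 2 ≤ c + k) ∨
    (Bᶜ ⊆ F ∧ c ≤ (F ∩ B).card + 1 ∧ (F ∩ B).card + 3 ≤ c + k) := by
  simp [Fh]

lemma mem_Fw {B0 : Finset α} {F : Finset α} :
    F ∈ Fw B0 ↔ (∃ x ∈ B0, F = {x}) ∨ F = B0ᶜ ∨ ∃ x ∈ B0, F = insert x B0ᶜ := by
  simp only [Fw, mem_union, mem_image, mem_singleton]
  constructor
  · rintro ((⟨x, hx, rfl⟩ | h) | ⟨x, hx, rfl⟩)
    · exact Or.inl ⟨x, hx, rfl⟩
    · exact Or.inr (Or.inl h)
    · exact Or.inr (Or.inr ⟨x, hx, rfl⟩)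
  · rintro (⟨x, hx, rfl⟩ | h | ⟨x, hx, rfl⟩)
    · exact Or.inl (Or.inl ⟨x, hx, rfl⟩)
    · exact Or.inl (Or.inr h)
    · exact Or.inr ⟨x, hx, rfl⟩

/-- strict monotonicity of the rank on the layer family -/
lemma rank_lt {B : Finset α} {c k : ℕ} (hR : (Bᶜ : Finset α).Nonempty) {F F' : Finset α}
    (h1 : F ∈ Fh B c k) (h2 : F' ∈ Fh B c k) (h : F ⊂ F') :
    (F ∩ B).card + (if Bᶜ ⊆ F then 1 else 0) < (F' ∩ B).card + (if Bᶜ ⊆ F' then 1 else 0) := by
  obtain ⟨r, hr⟩ := hR
  have hrB : r ∉ B := by simpa using hr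
  have key : ∀ F : Finset α, F ⊆ B → ¬ Bᶜ ⊆ F := fun F hF hh => hrB (hF (hh hr))
  have hle : (F ∩ B).card ≤ (F' ∩ B).card :=
    Finset.card_le_card (Finset.inter_subset_inter_right h.1)
  rcases mem_Fh.1 h1 with ⟨a1, -, -⟩ | ⟨a1, -, -⟩ <;> rcases mem_Fh.1 h2 with ⟨b1, -, -⟩ | ⟨b1, -, -⟩
  · rw [if_neg (key _ a1), if_neg (key _ b1)]
    rw [Finset.inter_eq_left.2 a1, Finset.inter_eq_left.2 b1]
    have := Finset.card_lt_card h
    omega
  · rw [if_neg (key _ a1), if_pos b1]
    omega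
  · exfalso
    exact hrB (b1 (h.1 (a1 hr)))
  · rw [if_pos a1, if_pos b1]
    have : (F ∩ B) ⊂ (F' ∩ B) := by
      refine ⟨Finset.inter_subset_inter_right h.1, fun hh => h.2 ?_⟩
      intro x hx
      by_cases hxB : x ∈ B
      · exact (Finset.mem_inter.1 (hh (Finset.mem_inter.2 ⟨hx, hxB⟩))).1
      · exact a1 (by simpa using hxB)
    have := Finset.card_lt_card this
    omega

lemma rank_bounds {B : Finset α} {c k : ℕ} (hR : (Bᶜ : Finset α).Nonempty) {F : Finset α}
    (h1 : F ∈ Fh B c k) :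
    c ≤ (F ∩ B).card + (if Bᶜ ⊆ F then 1 else 0) ∧
    (F ∩ B).card + (if Bᶜ ⊆ F then 1 else 0) + 2 ≤ c + k := by
  obtain ⟨r, hr⟩ := hR
  have hrB : r ∉ B := by simpa using hr
  have key : ∀ F : Finset α, F ⊆ B → ¬ Bᶜ ⊆ F := fun F hF hh => hrB (hF (hh hr))
  rcases mem_Fh.1 h1 with ⟨a1, a2, a3⟩ | ⟨a1, a2, a3⟩
  · rw [if_neg (key _ a1)]
    omega
  · rw [if_pos a1]
    omega

/-- no chain of length `k` inside the layer family -/
lemma no_long_chain {B : Finset α} {c k : ℕ} (hk : 1 ≤ k) (hR : (Bᶜ : Finset α).Nonempty)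
    (f : Fin k → Finset α) (hf : StrictMono f) (hmem : ∀ t, f t ∈ Fh B c k) : False := by
  have key : ∀ t : ℕ, ∀ ht : t < k,
      c + t ≤ (f ⟨t, ht⟩ ∩ B).card + (if Bᶜ ⊆ f ⟨t, ht⟩ then 1 else 0) := by
    intro t
    induction t with
    | zero =>
      intro ht
      exact (rank_bounds hR (hmem _)).1
    | succ t ih =>
      intro ht
      have h1 := ih (by omega)
      have h2 : f ⟨t, by omega⟩ ⊂ f ⟨t + 1, ht⟩ := hf (by simp [Fin.lt_def])
      have h3 := rank_lt hR (hmem ⟨t, by omega⟩) (hmem ⟨t + 1, ht⟩) h2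
      omega
  have h1 := key (k - 1) (by omega)
  have h2 := (rank_bounds hR (hmem ⟨k - 1, by omega⟩)).2
  omega

lemma sigma_le_fst {m : ℕ} {i : Fin m → ℕ} {p q : Σ j : Fin m, Fin (i j)} (h : p ≤ q) : p.1 = q.1 := by
  cases h
  rfl

theorem pfree {m : ℕ} (i : Fin m → ℕ) (k c : ℕ) (hk : 1 ≤ k) (B0 B : Finset α)
    (hR : (Bᶜ : Finset α).Nonempty) (K : Finset (Fin m)) (hK : ∀ j ∈ K, i j = k)
    (hKc : K.card = B0.card + 1) (j1 : Fin m) (hj1 : j1 ∉ K) (hj1' : 0 < i j1)
    (f : (Σ j : Fin m, Fin (i j)) → Finset α)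
    (hf : ∀ p q, p ≤ q ↔ f p ⊆ f q)
    (hmem : ∀ p, f p ∈ Fh B c k ∪ Fw B0) : False := by
  classical
  have : Nonempty (Σ j : Fin m, Fin (i j)) := ⟨⟨j1, ⟨0, hj1'⟩⟩⟩
  have hex : ∀ j ∈ K, ∃ p : (Σ j : Fin m, Fin (i j)), p.1 = j ∧ f p ∈ Fw B0 := by
    intro j hj
    by_contra hcon
    push Not at hcon
    have hall : ∀ t : Fin (i j), f ⟨j, t⟩ ∈ Fh B c k := by
      intro t
      rcases Finset.mem_union.1 (hmem ⟨j, t⟩) with h | h
      · exact h
      · exact absurd h (hcon ⟨j, t⟩ rfl)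
    have hij := hK j hj
    refine no_long_chain (B := B) (c := c) hk hR (fun t : Fin k => f ⟨j, Fin.cast hij.symm t⟩) ?_ (fun t => hall _)
    intro a b hab
    have hlt : (⟨j, Fin.cast hij.symm a⟩ : Σ j : Fin m, Fin (i j)) < ⟨j, Fin.cast hij.symm b⟩ := by
      rw [Sigma.mk_lt_mk_iff]
      exact hab
    constructor
    · exact (hf _ _).1 hlt.le
    · intro hh
      exact absurd ((hf _ _).2 hh) (not_le_of_gt hlt)
  choose! p hp1 hp2 using hex
  have hinc : ∀ j ∈ K, ∀ j' ∈ K, f (p j) ⊆ f (p j') → j = j' := by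
    intro j hj j' hj' h
    have := sigma_le_fst ((hf _ _).2 h)
    rw [hp1 j hj, hp1 j' hj'] at this
    exact this
  have hψ : ∀ j ∈ K, ∃ o : Option α, (o = none ∧ f (p j) = B0ᶜ) ∨
      (∃ x ∈ B0, o = some x ∧ (f (p j) = {x} ∨ f (p j) = insert x B0ᶜ)) := by
    intro j hj
    rcases mem_Fw.1 (hp2 j hj) with ⟨x, hx, h⟩ | h | ⟨x, hx, h⟩
    · exact ⟨some x, Or.inr ⟨x, hx, rfl, Or.inl h⟩⟩
    · exact ⟨none, Or.inl ⟨rfl, h⟩⟩
    · exact ⟨some x, Or.inr ⟨x, hx, rfl, Or.inr h⟩⟩
  choose! ψ hψ using hψ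
  have hinj : Set.InjOn ψ K := by
    intro j hj j' hj' heq
    have hj := Finset.mem_coe.1 hj
    have hj' := Finset.mem_coe.1 hj'
    rcases hψ j hj with ⟨h1, h2⟩ | ⟨x, hx, h1, h2⟩ <;> rcases hψ j' hj' with ⟨h1', h2'⟩ | ⟨x', hx', h1', h2'⟩
    · exact hinc j hj j' hj' (by rw [h2, h2'])
    · rw [h1, h1'] at heq
      simp at heq
    · rw [h1, h1'] at heq
      simp at heq
    · rw [h1, h1'] at heq
      simp only [Option.some.injEq] at heq
      subst heq
      rcases h2 with h2 | h2 <;> rcases h2' with h2' | h2'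
      · exact hinc j hj j' hj' (by rw [h2, h2'])
      · exact hinc j hj j' hj' (by rw [h2, h2']; simp)
      · exact (hinc j' hj' j hj (by rw [h2, h2']; simp)).symm
      · exact hinc j hj j' hj' (by rw [h2, h2'])
  have himg : K.image ψ = Finset.insertNone B0 := by
    apply Finset.eq_of_subset_of_card_le
    · intro o ho
      rw [Finset.mem_image] at ho
      obtain ⟨j, hj, rfl⟩ := ho
      rcases hψ j hj with ⟨h1, h2⟩ | ⟨x, hx, h1, h2⟩
      · rw [h1]; simp
      · rw [h1]; simpa using hx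
    · rw [Finset.card_insertNone, Finset.card_image_of_injOn hinj, hKc]
  have hnone : ∃ j ∈ K, f (p j) = B0ᶜ := by
    have : (none : Option α) ∈ K.image ψ := by rw [himg]; simp
    rw [Finset.mem_image] at this
    obtain ⟨j, hj, h⟩ := this
    rcases hψ j hj with ⟨h1, h2⟩ | ⟨x, hx, h1, h2⟩
    · exact ⟨j, hj, h2⟩
    · rw [h1] at h; simp at h
  obtain ⟨jn, hjn, hfn⟩ := hnone
  have hsing : ∀ x ∈ B0, ∃ j ∈ K, f (p j) = {x} := by
    intro x hx
    have : (some x : Option α) ∈ K.image ψ := by rw [himg]; simpa using hx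
    rw [Finset.mem_image] at this
    obtain ⟨j, hj, h⟩ := this
    rcases hψ j hj with ⟨h1, h2⟩ | ⟨x', hx', h1, h2⟩
    · rw [h1] at h; simp at h
    · rw [h1] at h
      simp only [Option.some.injEq] at h
      subst h
      rcases h2 with h2 | h2
      · exact ⟨j, hj, h2⟩
      · exfalso
        have hjj := hinc jn hjn j hj (by rw [hfn, h2]; simp)
        subst hjj
        rw [hfn] at h2
        have : x' ∈ (B0ᶜ : Finset α) := by rw [h2]; simp
        rw [Finset.mem_compl] at this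
        exact this hx'
  by_cases hz : ∃ x ∈ B0, x ∈ f ⟨j1, ⟨0, hj1'⟩⟩
  · obtain ⟨x, hx, hxz⟩ := hz
    obtain ⟨j, hj, hfj⟩ := hsing x hx
    have := sigma_le_fst ((hf (p j) ⟨j1, ⟨0, hj1'⟩⟩).2 (by rw [hfj]; simpa using hxz))
    rw [hp1 j hj] at this
    apply hj1
    have this' : j = j1 := this
    rw [← this']
    exact hj
  · push Not at hz
    have := sigma_le_fst ((hf ⟨j1, ⟨0, hj1'⟩⟩ (p jn)).2 (by
      rw [hfn]
      intro x hx
      rw [Finset.mem_compl]
      exact fun hx0 => hz x hx0 hx))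
    rw [hp1 jn hjn] at this
    apply hj1
    have this' : j1 = jn := this
    rw [this']
    exact hjn


/-- the chain through the new set `G` -/
lemma chain_through (B G lo hi : Finset α) (c k : ℕ) (hk : 1 ≤ k)
    (hG1 : ∃ r ∈ (Bᶜ : Finset α), r ∈ G) (hG2 : ∃ r ∈ (Bᶜ : Finset α), r ∉ G)
    (hlo : lo ⊆ G) (hhi : G ⊆ hi)
    (h1 : c ≤ (G ∩ B).card → lo ⊆ B ∧ (lo ∩ B).card ≤ c)
    (h2 : (G ∩ B).card + 3 ≤ c + k → Bᶜ ⊆ hi ∧ c + k ≤ (hi ∩ B).card + 3) :
    ∃ f : Fin k → Finset α, StrictMono f ∧ (∀ t, lo ⊆ f t ∧ f t ⊆ hi) ∧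
      ∀ t, f t ∈ insert G (Fh B c k) := by
  classical
  set a := (G ∩ B).card with ha
  obtain ⟨r, hrB, hrG⟩ := hG1
  obtain ⟨r', hrB', hrG'⟩ := hG2
  rw [Finset.mem_compl] at hrB hrB'
  -- lower part
  have hY : ∃ Y : ℕ → Finset α, Monotone Y ∧ ∀ r, c ≤ r → r ≤ a →
      lo ⊆ Y r ∧ Y r ⊆ G ∩ B ∧ (Y r ∩ B).card = r := by
    by_cases hca : c ≤ a
    · obtain ⟨h11, h12⟩ := h1 hca
      obtain ⟨Y, hY1, hY2, hY3⟩ := exists_chain B lo (G ∩ B) (Finset.subset_inter hlo h11)
        (fun x hx => (Finset.mem_inter.1 (Finset.mem_sdiff.1 hx).1).2)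
      refine ⟨Y, hY1, fun r hr1 hr2 => ⟨(hY2 r).1, (hY2 r).2, hY3 r (by omega) ?_⟩⟩
      rw [Finset.inter_assoc, Finset.inter_self]
      exact hr2
    · exact ⟨fun _ => ∅, monotone_const, fun r hr1 hr2 => by omega⟩
  obtain ⟨Y, hY1, hY2⟩ := hY
  have hZ : ∃ Z : ℕ → Finset α, Monotone Z ∧ ∀ r, a ≤ r → r + 3 ≤ c + k →
      (G ∩ B) ∪ Bᶜ ⊆ Z r ∧ Z r ⊆ hi ∧ (Z r ∩ B).card = r := by
    by_cases hca : a + 3 ≤ c + k
    · obtain ⟨h21, h22⟩ := h2 hca
      have hsub : (G ∩ B) ∪ Bᶜ ⊆ hi := Finset.union_subset (Finset.inter_subset_left.trans hhi) h21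
      obtain ⟨Z, hZ1, hZ2, hZ3⟩ := exists_chain B ((G ∩ B) ∪ Bᶜ) hi hsub (by
        intro x hx
        rw [Finset.mem_sdiff, Finset.mem_union, Finset.mem_compl] at hx
        by_contra hxB
        exact hx.2 (Or.inr hxB))
      refine ⟨Z, hZ1, fun r hr1 hr2 => ⟨(hZ2 r).1, (hZ2 r).2, hZ3 r ?_ (by omega)⟩⟩
      have : ((G ∩ B) ∪ Bᶜ) ∩ B = G ∩ B := by
        ext x
        simp only [Finset.mem_inter, Finset.mem_union, Finset.mem_compl]
        tauto
      rw [this]
      exact hr1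
    · exact ⟨fun _ => ∅, monotone_const, fun r hr1 hr2 => by omega⟩
  obtain ⟨Z, hZ1, hZ2⟩ := hZ
  -- position of G
  obtain ⟨p, hp⟩ : ∃ p, p = min (a + 1 - c) (k - 1) := ⟨_, rfl⟩
  have hp1 : ∀ t, t < p → c + t ≤ a ∧ t + 1 < k := by
    intro t ht
    omega
  have hp2 : ∀ t, p < t → t < k → a ≤ c + t - 2 ∧ c + t - 2 + 3 ≤ c + k ∧ 1 ≤ t ∧ 2 ≤ c + t := by
    intro t ht htk
    have : a + 1 - c ≤ k - 1 := by
      by_contra hcon
      omega
    have hpe : p = a + 1 - c := by omega
    rw [hpe] at ht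
    refine ⟨by omega, by omega, by omega, ?_⟩
    omega
  let F : ℕ → Finset α := fun t => if t < p then Y (c + t) else if t = p then G else Z (c + t - 2)
  have hFlow : ∀ t, t < p → F t = Y (c + t) := fun t ht => by simp [F, ht]
  have hFmid : F p = G := by simp [F]
  have hFup : ∀ t, p < t → F t = Z (c + t - 2) := fun t ht => by
    have h1 : ¬ t < p := by omega
    have h2 : ¬ t = p := by omega
    simp [F, h1, h2]
  have hGsubZ : ∀ t, p < t → t < k → G ⊂ Z (c + t - 2) := by
    intro t ht htk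
    obtain ⟨q1, q2, q3, q4⟩ := hp2 t ht htk
    obtain ⟨z1, z2, z3⟩ := hZ2 _ q1 q2
    constructor
    · intro x hx
      apply z1
      rw [Finset.mem_union, Finset.mem_inter, Finset.mem_compl]
      by_cases hxB : x ∈ B
      · exact Or.inl ⟨hx, hxB⟩
      · exact Or.inr hxB
    · intro hh
      apply hrG'
      apply hh
      apply z1
      rw [Finset.mem_union, Finset.mem_compl]
      exact Or.inr hrB'
  have hYsubG : ∀ t, t < p → Y (c + t) ⊂ G := by
    intro t ht
    obtain ⟨q1, q2⟩ := hp1 t ht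
    obtain ⟨z1, z2, z3⟩ := hY2 (c + t) (by omega) q1
    constructor
    · exact z2.trans Finset.inter_subset_left
    · intro hh
      apply hrB
      exact (Finset.mem_inter.1 (z2 (hh hrG))).2
  have hcardlt : ∀ X X' : Finset α, X ⊆ X' → (X ∩ B).card < (X' ∩ B).card → X ⊂ X' := by
    intro X X' h1 h2
    refine ⟨h1, fun hh => ?_⟩
    have := Finset.card_le_card (Finset.inter_subset_inter_right hh : X' ∩ B ⊆ X ∩ B)
    omega
  have hstrict : ∀ s t, s < t → t < k → F s ⊂ F t := by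
    intro s t hst htk
    rcases lt_trichotomy t p with htp | htp | htp
    · -- both low
      rw [hFlow t htp, hFlow s (by omega)]
      obtain ⟨q1, q2⟩ := hp1 t htp
      apply hcardlt _ _ (hY1 (by omega))
      rw [(hY2 (c + s) (by omega) (by omega)).2.2, (hY2 (c + t) (by omega) (by omega)).2.2]
      omega
    · rw [htp, hFmid, hFlow s (by omega)]
      exact hYsubG s (by omega)
    · rw [hFup t htp]
      rcases lt_trichotomy s p with hsp | hsp | hsp
      · rw [hFlow s hsp]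
        exact (hYsubG s hsp).trans (hGsubZ t htp htk)
      · rw [hsp, hFmid]
        exact hGsubZ t htp htk
      · rw [hFup s hsp]
        obtain ⟨q1, q2, q3, q4⟩ := hp2 t htp htk
        obtain ⟨q1', q2', q3', q4'⟩ := hp2 s hsp (by omega)
        apply hcardlt _ _ (hZ1 (by omega))
        rw [(hZ2 _ q1 q2).2.2, (hZ2 _ q1' q2').2.2]
        omega
  refine ⟨fun t => F t, ?_, ?_, ?_⟩
  · intro s t hst
    exact hstrict s t hst t.2
  · intro t
    rcases lt_trichotomy t.1 p with htp | htp | htp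
    · show lo ⊆ F t ∧ F t ⊆ hi
      rw [hFlow t htp]
      obtain ⟨q1, q2⟩ := hp1 t htp
      obtain ⟨z1, z2, z3⟩ := hY2 (c + t) (by omega) q1
      exact ⟨z1, (z2.trans Finset.inter_subset_left).trans hhi⟩
    · show lo ⊆ F t ∧ F t ⊆ hi
      rw [htp, hFmid]
      exact ⟨hlo, hhi⟩
    · show lo ⊆ F t ∧ F t ⊆ hi
      rw [hFup t htp]
      obtain ⟨q1, q2, q3, q4⟩ := hp2 t htp t.2
      obtain ⟨z1, z2, z3⟩ := hZ2 _ q1 q2
      exact ⟨hlo.trans (hGsubZ t htp t.2).1, z2⟩
  · intro t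
    rw [Finset.mem_insert]
    rcases lt_trichotomy t.1 p with htp | htp | htp
    · right
      show F t ∈ _
      rw [hFlow t htp]
      obtain ⟨q1, q2⟩ := hp1 t htp
      obtain ⟨z1, z2, z3⟩ := hY2 (c + t) (by omega) q1
      rw [mem_Fh]
      left
      exact ⟨z2.trans Finset.inter_subset_right, by omega, by omega⟩
    · left
      show F t = G
      rw [htp, hFmid]
    · right
      show F t ∈ _
      rw [hFup t htp]
      obtain ⟨q1, q2, q3, q4⟩ := hp2 t htp t.2
      obtain ⟨z1, z2, z3⟩ := hZ2 _ q1 q2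
      rw [mem_Fh]
      right
      refine ⟨Finset.subset_union_right.trans z1, ?_, by omega⟩
      rw [z3]
      omega

/-- generic chains in the layer family, small type -/
lemma chain_small (B lo hi : Finset α) (c k : ℕ) (hlh : lo ⊆ hi) (hhB : hi ⊆ B)
    (h1 : (lo ∩ B).card ≤ c) (h2 : c + k ≤ (hi ∩ B).card + 2) :
    ∃ X : ℕ → Finset α, (∀ s t, s < t → t + 1 < k → X s ⊂ X t) ∧ (∀ t, lo ⊆ X t ∧ X t ⊆ hi) ∧
      ∀ t, t + 1 < k → X t ∈ Fh B c k := by
  obtain ⟨X, hX1, hX2, hX3⟩ := exists_chain B lo hi hlh (Finset.sdiff_subset.trans hhB)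
  refine ⟨fun t => X (c + t), ?_, fun t => hX2 _, ?_⟩
  · intro s t hst ht
    refine ⟨hX1 (by omega), fun hh => ?_⟩
    have h3 := Finset.card_le_card (Finset.inter_subset_inter_right hh : X (c + t) ∩ B ⊆ X (c + s) ∩ B)
    rw [hX3 (c + t) (by omega) (by omega), hX3 (c + s) (by omega) (by omega)] at h3
    omega
  · intro t ht
    show X (c + t) ∈ Fh B c k
    rw [mem_Fh]
    left
    have := hX3 (c + t) (by omega) (by omega)
    exact ⟨(hX2 _).2.trans hhB, by omega, by omega⟩

/-- generic chains in the layer family, large type -/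
lemma chain_large (B lo hi : Finset α) (c k : ℕ) (hlh : lo ⊆ hi) (hhB : Bᶜ ⊆ lo)
    (h1 : (lo ∩ B).card + 1 ≤ c) (h2 : c + k ≤ (hi ∩ B).card + 3) :
    ∃ X : ℕ → Finset α, (∀ s t, s < t → t + 1 < k → X s ⊂ X t) ∧ (∀ t, lo ⊆ X t ∧ X t ⊆ hi) ∧
      ∀ t, t + 1 < k → X t ∈ Fh B c k := by
  obtain ⟨X, hX1, hX2, hX3⟩ := exists_chain B lo hi hlh (by
    intro x hx
    rw [Finset.mem_sdiff] at hx
    by_contra hxB
    exact hx.2 (hhB (by simpa using hxB)))
  refine ⟨fun t => X (c + t - 1), ?_, fun t => hX2 _, ?_⟩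
  · intro s t hst ht
    refine ⟨hX1 (by omega), fun hh => ?_⟩
    have h3 := Finset.card_le_card (Finset.inter_subset_inter_right hh : X (c + t - 1) ∩ B ⊆ X (c + s - 1) ∩ B)
    rw [hX3 (c + t - 1) (by omega) (by omega), hX3 (c + s - 1) (by omega) (by omega)] at h3
    omega
  · intro t ht
    show X (c + t - 1) ∈ Fh B c k
    rw [mem_Fh]
    right
    have := hX3 (c + t - 1) (by omega) (by omega)
    exact ⟨hhB.trans (hX2 _).1, by omega, by omega⟩


lemma chain_Q (lo hi : Finset α) (k L : ℕ) (hL : L + 1 ≤ k) (𝓕 𝓖 : Finset (Finset α)) (h𝓕 : 𝓕 ⊆ 𝓖)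
    (X : ℕ → Finset α) (hX1 : ∀ s t, s < t → t + 1 < k → X s ⊂ X t)
    (hX2 : ∀ t, lo ⊆ X t ∧ X t ⊆ hi) (hX3 : ∀ t, t + 1 < k → X t ∈ 𝓕) :
    ∃ f : Fin L → Finset α, StrictMono f ∧ (∀ t, lo ⊆ f t ∧ f t ⊆ hi) ∧ ∀ t, f t ∈ 𝓖 := by
  refine ⟨fun t => X t, ?_, fun t => hX2 t, fun t => h𝓕 (hX3 t (by omega))⟩
  intro s t hst
  exact hX1 s t hst (by omega)

lemma chain_bot (lo hi : Finset α) (k : ℕ) (𝓕 𝓖 : Finset (Finset α)) (h𝓕 : 𝓕 ⊆ 𝓖)
    (X : ℕ → Finset α) (hX1 : ∀ s t, s < t → t + 1 < k → X s ⊂ X t)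
    (hX2 : ∀ t, lo ⊆ X t ∧ X t ⊆ hi) (hX3 : ∀ t, t + 1 < k → X t ∈ 𝓕)
    (x : α) (hx : x ∈ lo) (hxG : {x} ∈ 𝓖) (hne : ∀ t, t + 1 < k → X t ≠ {x}) :
    ∃ f : Fin k → Finset α, StrictMono f ∧ (∀ t, {x} ⊆ f t ∧ f t ⊆ hi) ∧ ∀ t, f t ∈ 𝓖 := by
  have hx' : ∀ t, {x} ⊆ X t := fun t => by
    rw [Finset.singleton_subset_iff]
    exact (hX2 t).1 hx
  refine ⟨fun t => if t.1 = 0 then {x} else X (t.1 - 1), ?_, ?_, ?_⟩
  · intro s t hst
    have hst' : s.1 < t.1 := hst
    have h1 : ¬ t.1 = 0 := by omega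
    have h2 := t.2
    simp only [h1, if_false]
    by_cases hs : s.1 = 0
    · simp only [hs, if_true]
      exact lt_of_le_of_ne (hx' _) (hne _ (by omega)).symm
    · simp only [hs, if_false]
      exact hX1 _ _ (by omega) (by omega)
  · intro t
    by_cases hs : t.1 = 0
    · simp only [hs, if_true]
      exact ⟨Finset.Subset.refl _, (hx' 0).trans (hX2 0).2⟩
    · simp only [hs, if_false]
      exact ⟨hx' _, (hX2 _).2⟩
  · intro t
    by_cases hs : t.1 = 0
    · simp only [hs, if_true]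
      exact hxG
    · simp only [hs, if_false]
      exact h𝓕 (hX3 _ (by omega))

lemma chain_top (lo hi top : Finset α) (k : ℕ) (𝓕 𝓖 : Finset (Finset α)) (h𝓕 : 𝓕 ⊆ 𝓖)
    (X : ℕ → Finset α) (hX1 : ∀ s t, s < t → t + 1 < k → X s ⊂ X t)
    (hX2 : ∀ t, lo ⊆ X t ∧ X t ⊆ hi) (hX3 : ∀ t, t + 1 < k → X t ∈ 𝓕)
    (htop : hi ⊆ top) (hxG : top ∈ 𝓖) (hne : ∀ t, t + 1 < k → X t ≠ top) :
    ∃ f : Fin k → Finset α, StrictMono f ∧ (∀ t, lo ⊆ f t ∧ f t ⊆ top) ∧ ∀ t, f t ∈ 𝓖 := by
  refine ⟨fun t => if t.1 + 1 < k then X t.1 else top, ?_, ?_, ?_⟩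
  · intro s t hst
    have hst' : s.1 < t.1 := hst
    have h2 := t.2
    have h1 : s.1 + 1 < k := by omega
    simp only [h1, if_true]
    by_cases hs : t.1 + 1 < k
    · simp only [hs, if_true]
      exact hX1 _ _ hst' hs
    · simp only [hs, if_false]
      exact lt_of_le_of_ne ((hX2 _).2.trans htop) (hne _ h1)
  · intro t
    by_cases hs : t.1 + 1 < k
    · simp only [hs, if_true]
      exact ⟨(hX2 _).1, (hX2 _).2.trans htop⟩
    · simp only [hs, if_false]
      exact ⟨((hX2 0).1.trans (hX2 0).2).trans htop, Finset.Subset.refl _⟩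
  · intro t
    by_cases hs : t.1 + 1 < k
    · simp only [hs, if_true]
      exact h𝓕 (hX3 _ hs)
    · simp only [hs, if_false]
      exact hxG

/-- assembling the copy -/
lemma assemble {m : ℕ} (i : Fin m → ℕ) (𝓖 : Finset (Finset α)) (Lo Hi : Fin m → Finset α)
    (hsep : ∀ j j', j ≠ j' → ¬ Lo j ⊆ Hi j')
    (h : ∀ j, ∃ f : Fin (i j) → Finset α, StrictMono f ∧ (∀ t, Lo j ⊆ f t ∧ f t ⊆ Hi j) ∧
      ∀ t, f t ∈ 𝓖) :
    ∃ f : (Σ j : Fin m, Fin (i j)) → Finset α, (∀ p q, p ≤ q ↔ f p ⊆ f q) ∧ ∀ p, f p ∈ 𝓖 := by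
  choose f hf1 hf2 hf3 using h
  refine ⟨fun p => f p.1 p.2, ?_, fun p => hf3 _ _⟩
  rintro ⟨j, a⟩ ⟨j', b⟩
  constructor
  · intro hle
    have := sigma_le_fst hle
    simp only at this
    subst this
    rw [Sigma.mk_le_mk_iff] at hle
    exact (hf1 j).monotone hle
  · intro hsub
    by_cases hjj : j = j'
    · subst hjj
      rw [Sigma.mk_le_mk_iff]
      exact (hf1 j).le_iff_le.1 hsub
    · exact absurd (((hf2 j a).1.trans hsub).trans (hf2 j' b).2) (hsep j j' hjj)

/-- trace prescription on the hub -/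
def tr {m : ℕ} (i : Fin m → ℕ) (k : ℕ) (j0 : Fin m) (e : Fin m → α) (A0 : Finset α) (j : Fin m) :
    Finset α :=
  if i j = k ∧ j ≠ j0 then (if A0 = {e j} then ∅ else {e j}) else A0

lemma core {m : ℕ} (i : Fin m → ℕ) (k c : ℕ) (hc : 3 ≤ c) (hik : ∀ j, i j ≤ k)
    (j0 : Fin m) (hj0 : i j0 = k) (e : Fin m → α) (he : Function.Injective e)
    (B0 B1 : Finset α) (hB0 : ∀ x, x ∈ B0 ↔ ∃ j, (i j = k ∧ j ≠ j0) ∧ e j = x)
    (hdisj : Disjoint B0 B1) (hB1 : c + k ≤ B1.card)
    (G : Finset α) (lo hi : Fin m → Finset α)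
    (hlo : ∀ j, lo j ∩ B0 = tr i k j0 e (G ∩ B0) j) (hhi : ∀ j, hi j ∩ B0 = tr i k j0 e (G ∩ B0) j)
    (hsep : ∀ j j', j ≠ j' → ¬ lo j ⊆ hi j')
    (hX : ∀ j, j ≠ j0 → ∃ X : ℕ → Finset α, (∀ s t, s < t → t + 1 < k → X s ⊂ X t) ∧
      (∀ t, lo j ⊆ X t ∧ X t ⊆ hi j) ∧ ∀ t, t + 1 < k → X t ∈ Fh (B0 ∪ B1) c k)
    (hD : ∃ f : Fin k → Finset α, StrictMono f ∧ (∀ t, lo j0 ⊆ f t ∧ f t ⊆ hi j0) ∧
      ∀ t, f t ∈ insert G (Fh (B0 ∪ B1) c k)) :
    ∃ f : (Σ j : Fin m, Fin (i j)) → Finset α, (∀ p q, p ≤ q ↔ f p ⊆ f q) ∧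
      ∀ p, f p ∈ insert G (Fh (B0 ∪ B1) c k ∪ Fw B0) := by
  classical
  have hsub1 : Fh (B0 ∪ B1) c k ⊆ insert G (Fh (B0 ∪ B1) c k ∪ Fw B0) :=
    Finset.subset_union_left.trans (Finset.subset_insert _ _)
  have hsub2 : Fw B0 ⊆ insert G (Fh (B0 ∪ B1) c k ∪ Fw B0) :=
    Finset.subset_union_right.trans (Finset.subset_insert _ _)
  have hsub3 : insert G (Fh (B0 ∪ B1) c k) ⊆ insert G (Fh (B0 ∪ B1) c k ∪ Fw B0) :=
    Finset.insert_subset_insert _ Finset.subset_union_left
  have heB0 : ∀ j, i j = k → j ≠ j0 → e j ∈ B0 := fun j h1 h2 => (hB0 _).2 ⟨j, ⟨h1, h2⟩, rfl⟩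
  -- the final bounds
  let Lo : Fin m → Finset α := fun j => if (i j = k ∧ j ≠ j0) ∧ e j ∉ G then {e j} else lo j
  let Hi : Fin m → Finset α := fun j => if (i j = k ∧ j ≠ j0) ∧ e j ∈ G then
    B0ᶜ ∪ tr i k j0 e (G ∩ B0) j else hi j
  have hHiTr : ∀ j, Hi j ∩ B0 = tr i k j0 e (G ∩ B0) j := by
    intro j
    by_cases hj : (i j = k ∧ j ≠ j0) ∧ e j ∈ G
    · simp only [Hi, hj, and_self, not_false_eq_true, if_true, ne_eq]
      have htr : tr i k j0 e (G ∩ B0) j ⊆ B0 := by
        rw [← hlo j]; exact Finset.inter_subset_right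
      ext x
      simp only [Finset.mem_inter, Finset.mem_union, Finset.mem_compl]
      constructor
      · rintro ⟨h1 | h1, h2⟩
        · exact absurd h2 h1
        · exact h1
      · intro h1
        exact ⟨Or.inr h1, htr h1⟩
    · simp only [Hi, hj, if_false]
      exact hhi j
  apply assemble i _ Lo Hi
  · intro j j' hjj hsubs
    by_cases hbot : (i j = k ∧ j ≠ j0) ∧ e j ∉ G
    · -- e j is not in Hi j'
      have h1 : e j ∈ Hi j' := by
        apply hsubs
        simp [Lo, hbot]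
      have h2 : e j ∈ tr i k j0 e (G ∩ B0) j' := by
        rw [← hHiTr j', Finset.mem_inter]
        exact ⟨h1, heB0 j hbot.1.1 hbot.1.2⟩
      unfold tr at h2
      split_ifs at h2 with h3 h4
      · simp at h2
      · rw [Finset.mem_singleton] at h2
        exact hjj (he h2)
      · exact hbot.2 (Finset.mem_inter.1 h2).1
    · have hLo : Lo j = lo j := by simp only [Lo, hbot, if_false]
      rw [hLo] at hsubs
      by_cases htop : (i j' = k ∧ j' ≠ j0) ∧ e j' ∈ G
      · -- trace argument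
        have h1 : tr i k j0 e (G ∩ B0) j ⊆ tr i k j0 e (G ∩ B0) j' := by
          rw [← hHiTr j', ← hlo j]
          exact Finset.inter_subset_inter_right hsubs
        have h5 : e j' ∈ G ∩ B0 := Finset.mem_inter.2 ⟨htop.2, heB0 j' htop.1.1 htop.1.2⟩
        have h6 : tr i k j0 e (G ∩ B0) j' = if G ∩ B0 = {e j'} then ∅ else {e j'} := by
          unfold tr
          rw [if_pos htop.1]
        rw [h6] at h1
        by_cases hKj : i j = k ∧ j ≠ j0
        · -- j of top type
          have hjG : e j ∈ G := by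
            by_contra hh
            exact hbot ⟨hKj, hh⟩
          have h7 : e j ∈ G ∩ B0 := Finset.mem_inter.2 ⟨hjG, heB0 j hKj.1 hKj.2⟩
          have h8 : G ∩ B0 ≠ {e j} := by
            intro hh
            rw [hh, Finset.mem_singleton] at h5
            exact hjj (he h5).symm
          have h9 : tr i k j0 e (G ∩ B0) j = {e j} := by
            unfold tr
            rw [if_pos hKj, if_neg h8]
          rw [h9, Finset.singleton_subset_iff] at h1
          split_ifs at h1 with h10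
          · simp at h1
          · rw [Finset.mem_singleton] at h1
            exact hjj (he h1)
        · have h9 : tr i k j0 e (G ∩ B0) j = G ∩ B0 := by
            unfold tr
            rw [if_neg hKj]
          rw [h9] at h1
          split_ifs at h1 with h10
          · rw [h10] at h1
            simp at h1
          · apply h10
            apply Finset.Subset.antisymm h1
            rw [Finset.singleton_subset_iff]
            exact h5
      · have hHi : Hi j' = hi j' := by simp only [Hi, htop, if_false]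
        rw [hHi] at hsubs
        exact hsep j j' hjj hsubs
  · intro j
    by_cases hjj0 : j = j0
    · subst hjj0
      have hLo : Lo j = lo j := by simp [Lo]
      have hHi : Hi j = hi j := by simp [Hi]
      rw [hLo, hHi, hj0]
      obtain ⟨f, hf1, hf2, hf3⟩ := hD
      exact ⟨f, hf1, hf2, fun t => hsub3 (hf3 t)⟩
    · obtain ⟨X, hX1, hX2, hX3⟩ := hX j hjj0
      by_cases hijk : i j = k
      · have heB := heB0 j hijk hjj0
        by_cases hG : e j ∈ G
        · -- top type
          have hLo : Lo j = lo j := by simp [Lo, hG]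
          have hHi : Hi j = B0ᶜ ∪ tr i k j0 e (G ∩ B0) j := by simp [Hi, hG, hijk, hjj0]
          rw [hLo, hHi, hijk]
          apply chain_top (lo j) (hi j) _ k _ _ hsub1 X hX1 hX2 hX3
          · intro x hx
            rw [Finset.mem_union, Finset.mem_compl]
            by_cases hxB : x ∈ B0
            · right
              rw [← hhi j, Finset.mem_inter]
              exact ⟨hx, hxB⟩
            · exact Or.inl hxB
          · apply hsub2
            rw [mem_Fw]
            right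
            unfold tr
            rw [if_pos ⟨hijk, hjj0⟩]
            split_ifs with h10
            · left; simp
            · right
              refine ⟨e j, heB, ?_⟩
              ext x
              simp only [Finset.mem_union, Finset.mem_singleton, Finset.mem_insert]
              tauto
          · intro t ht heq
            have h1 := hX3 t ht
            rw [heq, mem_Fh] at h1
            have h2 : B1 ⊆ (B0ᶜ ∪ tr i k j0 e (G ∩ B0) j) ∩ (B0 ∪ B1) := by
              intro x hx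
              rw [Finset.mem_inter, Finset.mem_union, Finset.mem_union, Finset.mem_compl]
              exact ⟨Or.inl (Finset.disjoint_right.1 hdisj hx), Or.inr hx⟩
            have h3 := Finset.card_le_card h2
            omega
        · -- bottom type
          have hLo : Lo j = {e j} := by simp [Lo, hG, hijk, hjj0]
          have hHi : Hi j = hi j := by simp [Hi, hG]
          rw [hLo, hHi, hijk]
          have hxlo : e j ∈ lo j := by
            have h1 : e j ∈ tr i k j0 e (G ∩ B0) j := by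
              unfold tr
              rw [if_pos ⟨hijk, hjj0⟩]
              split_ifs with h10
              · exfalso
                have : e j ∈ G ∩ B0 := by rw [h10]; simp
                exact hG (Finset.mem_inter.1 this).1
              · simp
            rw [← hlo j] at h1
            exact (Finset.mem_inter.1 h1).1
          apply chain_bot (lo j) (hi j) k _ _ hsub1 X hX1 hX2 hX3 (e j) hxlo
          · apply hsub2
            rw [mem_Fw]
            exact Or.inl ⟨e j, heB, rfl⟩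
          · intro t ht heq
            have h1 := hX3 t ht
            rw [heq, mem_Fh] at h1
            have h3 : (({e j} : Finset α) ∩ (B0 ∪ B1)).card ≤ 1 := by
              calc (({e j} : Finset α) ∩ (B0 ∪ B1)).card ≤ ({e j} : Finset α).card :=
                    Finset.card_le_card Finset.inter_subset_left
                _ = 1 := Finset.card_singleton _
            omega
      · have hLo : Lo j = lo j := by simp [Lo, hijk]
        have hHi : Hi j = hi j := by simp [Hi, hijk]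
        rw [hLo, hHi]
        have hij := hik j
        exact chain_Q (lo j) (hi j) k (i j) (by omega) _ _ hsub1 X hX1 hX2 hX3


lemma tr_subset {m : ℕ} (i : Fin m → ℕ) (k : ℕ) (j0 : Fin m) (e : Fin m → α) (B0 G : Finset α)
    (hB0 : ∀ x, x ∈ B0 ↔ ∃ j, (i j = k ∧ j ≠ j0) ∧ e j = x) (j : Fin m) :
    tr i k j0 e (G ∩ B0) j ⊆ B0 := by
  unfold tr
  split_ifs with h1 h2
  · simp
  · rw [Finset.singleton_subset_iff]
    exact (hB0 _).2 ⟨j, h1, rfl⟩
  · exact Finset.inter_subset_right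

lemma union_inter_tr (τ S B0 : Finset α) (h1 : τ ⊆ B0) (h2 : ∀ x ∈ S, x ∉ B0) :
    (τ ∪ S) ∩ B0 = τ := by
  ext x
  simp only [Finset.mem_inter, Finset.mem_union]
  constructor
  · rintro ⟨h3 | h3, h4⟩
    · exact h3
    · exact absurd h4 (h2 x h3)
  · intro h3
    exact ⟨Or.inl h3, h1 h3⟩

lemma exists_inj (m : ℕ) (S : Finset α) (h : m ≤ S.card) :
    ∃ y : Fin m → α, Function.Injective y ∧ ∀ j, y j ∈ S := by
  have : Fintype.card (Fin m) ≤ Fintype.card S := by
    rw [Fintype.card_fin, Fintype.card_coe]; exact h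
  obtain ⟨g⟩ := Function.Embedding.nonempty_of_card_le this
  exact ⟨fun j => (g j).1, fun a b hab => g.injective (Subtype.ext hab), fun j => (g j).2⟩

lemma creates_small {m : ℕ} (i : Fin m → ℕ) (k c : ℕ) (hk : 1 ≤ k) (hc : c = 2 * m + 3)
    (hik : ∀ j, i j ≤ k)
    (j0 : Fin m) (hj0 : i j0 = k) (e : Fin m → α) (he : Function.Injective e)
    (B0 B1 : Finset α) (hB0 : ∀ x, x ∈ B0 ↔ ∃ j, (i j = k ∧ j ≠ j0) ∧ e j = x)
    (hB0c : B0.card ≤ m)
    (hdisj : Disjoint B0 B1) (hB1 : c + k + 2 * m + 3 ≤ B1.card)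
    (G : Finset α) (hG1 : ∃ r ∈ ((B0 ∪ B1)ᶜ : Finset α), r ∈ G)
    (hG2 : ∃ r ∈ ((B0 ∪ B1)ᶜ : Finset α), r ∉ G)
    (hsmall : m ≤ (B1 \ G).card) :
    ∃ f : (Σ j : Fin m, Fin (i j)) → Finset α, (∀ p q, p ≤ q ↔ f p ⊆ f q) ∧
      ∀ p, f p ∈ insert G (Fh (B0 ∪ B1) c k ∪ Fw B0) := by
  classical
  obtain ⟨y, hy1, hy2⟩ := exists_inj m (B1 \ G) hsmall
  have hyB1 : ∀ j, y j ∈ B1 := fun j => (Finset.mem_sdiff.1 (hy2 j)).1
  have hyG : ∀ j, y j ∉ G := fun j => (Finset.mem_sdiff.1 (hy2 j)).2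
  have hB1B0 : ∀ x, x ∈ B1 → x ∉ B0 := fun x hx => Finset.disjoint_right.1 hdisj hx
  have hyB0 : ∀ j, y j ∉ B0 := fun j => hB1B0 _ (hyB1 j)
  obtain ⟨z, hzG, hzB0, hzc⟩ : ∃ z, z ∈ G ∧ z ∉ B0 ∧ (c ≤ (G ∩ (B0 ∪ B1)).card → z ∈ B1) := by
    by_cases hca : c ≤ (G ∩ (B0 ∪ B1)).card
    · have h1 : (G ∩ (B0 ∪ B1)).card ≤ (G ∩ B0).card + (G ∩ B1).card := by
        rw [Finset.inter_union_distrib_left]
        exact Finset.card_union_le _ _
      have h2 : (G ∩ B0).card ≤ m := (Finset.card_le_card Finset.inter_subset_right).trans hB0c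
      have h3 : 0 < (G ∩ B1).card := by omega
      obtain ⟨z, hz⟩ := Finset.card_pos.1 h3
      rw [Finset.mem_inter] at hz
      exact ⟨z, hz.1, hB1B0 z hz.2, fun _ => hz.2⟩
    · obtain ⟨r, hr1, hr2⟩ := hG1
      rw [Finset.mem_compl, Finset.mem_union] at hr1
      push Not at hr1
      exact ⟨r, hr2, hr1.1, fun h => absurd h hca⟩
  have htr := tr_subset i k j0 e B0 G hB0
  have htr0 : tr i k j0 e (G ∩ B0) j0 = G ∩ B0 := by simp [tr]
  have htrc : ∀ j, (tr i k j0 e (G ∩ B0) j).card ≤ m := fun j => (Finset.card_le_card (htr j)).trans hB0c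
  let lo : Fin m → Finset α := fun j => tr i k j0 e (G ∩ B0) j ∪ (if j = j0 then {z} else {y j})
  let hi : Fin m → Finset α := fun j => tr i k j0 e (G ∩ B0) j ∪ (if j = j0 then
    B0ᶜ \ (univ.image y) else B1 \ (insert z ((univ.erase j).image y)))
  have hlo0 : lo j0 = (G ∩ B0) ∪ {z} := by simp [lo, htr0]
  have hhi0 : hi j0 = (G ∩ B0) ∪ (B0ᶜ \ (univ.image y)) := by simp [hi, htr0]
  have hlo' : ∀ j, j ≠ j0 → lo j = tr i k j0 e (G ∩ B0) j ∪ {y j} := fun j hj => by simp [lo, hj]
  have hhi' : ∀ j, j ≠ j0 → hi j = tr i k j0 e (G ∩ B0) j ∪ (B1 \ (insert z ((univ.erase j).image y))) :=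
    fun j hj => by simp [hi, hj]
  have hB1card : ∀ S : Finset α, S.card ≤ m + 1 → c + k + m + 2 ≤ (B1 \ S).card := by
    intro S hS
    have := Finset.le_card_sdiff S B1
    omega
  apply core i k c (by omega) hik j0 hj0 e he B0 B1 hB0 hdisj (by omega) G lo hi
  · intro j
    apply union_inter_tr _ _ _ (htr j)
    intro x hx
    split_ifs at hx
    · rw [Finset.mem_singleton] at hx; rw [hx]; exact hzB0
    · rw [Finset.mem_singleton] at hx; rw [hx]; exact hyB0 j
  · intro j
    apply union_inter_tr _ _ _ (htr j)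
    intro x hx
    split_ifs at hx
    · rw [Finset.mem_sdiff, Finset.mem_compl] at hx; exact hx.1
    · rw [Finset.mem_sdiff] at hx; exact hB1B0 x hx.1
  · intro j j' hjj hsub
    by_cases hj : j = j0
    · subst hj
      rw [hlo0, hhi' j' (Ne.symm hjj)] at hsub
      have h1 : z ∈ tr i k j e (G ∩ B0) j' ∪ (B1 \ (insert z ((univ.erase j').image y))) :=
        hsub (by simp)
      rw [Finset.mem_union, Finset.mem_sdiff] at h1
      rcases h1 with h1 | h1
      · exact hzB0 (htr j' h1)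
      · exact h1.2 (Finset.mem_insert_self _ _)
    · rw [hlo' j hj] at hsub
      by_cases hj' : j' = j0
      · subst hj'
        rw [hhi0] at hsub
        have h1 : y j ∈ (G ∩ B0) ∪ (B0ᶜ \ (univ.image y)) := hsub (by simp)
        rw [Finset.mem_union, Finset.mem_sdiff] at h1
        rcases h1 with h1 | h1
        · exact hyG j (Finset.mem_inter.1 h1).1
        · exact h1.2 (Finset.mem_image_of_mem _ (Finset.mem_univ _))
      · rw [hhi' j' hj'] at hsub
        have h1 : y j ∈ tr i k j0 e (G ∩ B0) j' ∪ (B1 \ (insert z ((univ.erase j').image y))) :=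
          hsub (by simp)
        rw [Finset.mem_union, Finset.mem_sdiff] at h1
        rcases h1 with h1 | h1
        · exact hyB0 j (htr j' h1)
        · apply h1.2
          apply Finset.mem_insert_of_mem
          apply Finset.mem_image_of_mem
          rw [Finset.mem_erase]
          exact ⟨hjj, Finset.mem_univ _⟩
  · intro j hj
    apply chain_small
    · rw [hlo' j hj, hhi' j hj]
      apply Finset.union_subset_union (Finset.Subset.refl _)
      rw [Finset.singleton_subset_iff, Finset.mem_sdiff, Finset.mem_insert, Finset.mem_image]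
      refine ⟨hyB1 j, ?_⟩
      rintro (h | ⟨j', hj', h⟩)
      · rw [← h] at hzG
        exact hyG j hzG
      · rw [Finset.mem_erase] at hj'
        exact hj'.1 (hy1 h)
    · rw [hhi' j hj]
      apply Finset.union_subset ((htr j).trans Finset.subset_union_left)
      exact Finset.sdiff_subset.trans Finset.subset_union_right
    · rw [hlo' j hj]
      calc ((tr i k j0 e (G ∩ B0) j ∪ {y j}) ∩ (B0 ∪ B1)).card
          ≤ (tr i k j0 e (G ∩ B0) j ∪ {y j}).card := Finset.card_le_card Finset.inter_subset_left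
        _ ≤ (tr i k j0 e (G ∩ B0) j).card + 1 := by
          have := Finset.card_union_le (tr i k j0 e (G ∩ B0) j) {y j}
          simpa using this
        _ ≤ c := by have := htrc j; omega
    · rw [hhi' j hj]
      have h1 : (B1 \ (insert z ((univ.erase j).image y))) ⊆
          (tr i k j0 e (G ∩ B0) j ∪ (B1 \ (insert z ((univ.erase j).image y)))) ∩ (B0 ∪ B1) := by
        intro x hx
        rw [Finset.mem_inter, Finset.mem_union, Finset.mem_union]
        exact ⟨Or.inr hx, Or.inr (Finset.mem_sdiff.1 hx).1⟩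
      have h2 := Finset.card_le_card h1
      have h3 := hB1card (insert z ((univ.erase j).image y)) (by
        refine (Finset.card_insert_le _ _).trans ?_
        have := (Finset.card_image_le (s := univ.erase j) (f := y))
        have h4 : (univ.erase j : Finset (Fin m)).card ≤ m := by
          refine (Finset.card_le_univ _).trans ?_
          simp
        omega)
      omega
  · have hlo0B : c ≤ (G ∩ (B0 ∪ B1)).card → lo j0 ⊆ B0 ∪ B1 ∧ (lo j0 ∩ (B0 ∪ B1)).card ≤ c := by
      intro h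
      rw [hlo0]
      constructor
      · apply Finset.union_subset (Finset.inter_subset_right.trans Finset.subset_union_left)
        rw [Finset.singleton_subset_iff]
        exact Finset.mem_union_right _ (hzc h)
      · calc (((G ∩ B0) ∪ {z}) ∩ (B0 ∪ B1)).card ≤ ((G ∩ B0) ∪ {z}).card :=
              Finset.card_le_card Finset.inter_subset_left
          _ ≤ (G ∩ B0).card + 1 := by
            have := Finset.card_union_le (G ∩ B0) {z}
            simpa using this
          _ ≤ m + 1 := by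
            have : (G ∩ B0).card ≤ m := (Finset.card_le_card Finset.inter_subset_right).trans hB0c
            omega
          _ ≤ c := by omega
    apply chain_through (B0 ∪ B1) G (lo j0) (hi j0) c k hk hG1 hG2 _ _ hlo0B
    · intro _
      rw [hhi0]
      constructor
      · intro x hx
        rw [Finset.mem_compl, Finset.mem_union] at hx
        push Not at hx
        rw [Finset.mem_union, Finset.mem_sdiff, Finset.mem_compl, Finset.mem_image]
        right
        refine ⟨hx.1, ?_⟩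
        rintro ⟨j, -, h⟩
        apply hx.2
        rw [← h]
        exact hyB1 j
      · have h1 : (B1 \ (univ.image y)) ⊆ ((G ∩ B0) ∪ (B0ᶜ \ (univ.image y))) ∩ (B0 ∪ B1) := by
          intro x hx
          rw [Finset.mem_sdiff] at hx
          rw [Finset.mem_inter, Finset.mem_union, Finset.mem_union, Finset.mem_sdiff, Finset.mem_compl]
          exact ⟨Or.inr ⟨hB1B0 x hx.1, hx.2⟩, Or.inr hx.1⟩
        have h2 := Finset.card_le_card h1
        have h3 := hB1card (univ.image y) (by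
          have := (Finset.card_image_le (s := (univ : Finset (Fin m))) (f := y))
          simp at this
          omega)
        omega
    · rw [hlo0]
      apply Finset.union_subset Finset.inter_subset_left
      rw [Finset.singleton_subset_iff]
      exact hzG
    · rw [hhi0]
      intro x hx
      rw [Finset.mem_union, Finset.mem_inter, Finset.mem_sdiff, Finset.mem_compl, Finset.mem_image]
      by_cases hxB : x ∈ B0
      · exact Or.inl ⟨hx, hxB⟩
      · right
        refine ⟨hxB, ?_⟩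
        rintro ⟨j, -, h⟩
        rw [← h] at hx
        exact hyG j hx

lemma creates_large {m : ℕ} (i : Fin m → ℕ) (k c : ℕ) (hk : 1 ≤ k) (hc : c = 2 * m + 3)
    (hik : ∀ j, i j ≤ k)
    (j0 : Fin m) (hj0 : i j0 = k) (e : Fin m → α) (he : Function.Injective e)
    (B0 B1 : Finset α) (hB0 : ∀ x, x ∈ B0 ↔ ∃ j, (i j = k ∧ j ≠ j0) ∧ e j = x)
    (hB0c : B0.card ≤ m)
    (hdisj : Disjoint B0 B1) (hB1 : c + k + 2 * m + 3 ≤ B1.card)
    (G : Finset α) (hG1 : ∃ r ∈ ((B0 ∪ B1)ᶜ : Finset α), r ∈ G)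
    (hG2 : ∃ r ∈ ((B0 ∪ B1)ᶜ : Finset α), r ∉ G)
    (hlarge : m ≤ (B1 ∩ G).card) :
    ∃ f : (Σ j : Fin m, Fin (i j)) → Finset α, (∀ p q, p ≤ q ↔ f p ⊆ f q) ∧
      ∀ p, f p ∈ insert G (Fh (B0 ∪ B1) c k ∪ Fw B0) := by
  classical
  obtain ⟨y, hy1, hy2⟩ := exists_inj m (B1 ∩ G) hlarge
  have hyB1 : ∀ j, y j ∈ B1 := fun j => (Finset.mem_inter.1 (hy2 j)).1
  have hyG : ∀ j, y j ∈ G := fun j => (Finset.mem_inter.1 (hy2 j)).2
  have hB1B0 : ∀ x, x ∈ B1 → x ∉ B0 := fun x hx => Finset.disjoint_right.1 hdisj hx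
  have hyB0 : ∀ j, y j ∉ B0 := fun j => hB1B0 _ (hyB1 j)
  obtain ⟨z, hzG, hzB0, hzc⟩ : ∃ z, z ∉ G ∧ z ∉ B0 ∧ ((G ∩ (B0 ∪ B1)).card + 3 ≤ c + k → z ∈ B1) := by
    by_cases hca : (G ∩ (B0 ∪ B1)).card + 3 ≤ c + k
    · have h1 : (G ∩ B1).card ≤ (G ∩ (B0 ∪ B1)).card :=
        Finset.card_le_card (Finset.inter_subset_inter_left Finset.subset_union_right)
      have h2 : ∃ z ∈ B1, z ∉ G ∩ B1 := by
        by_contra hcon
        push Not at hcon
        have := Finset.card_le_card (fun x hx => hcon x hx : B1 ⊆ G ∩ B1)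
        omega
      obtain ⟨z, hz1, hz2⟩ := h2
      exact ⟨z, fun h => hz2 (Finset.mem_inter.2 ⟨h, hz1⟩), hB1B0 z hz1, fun _ => hz1⟩
    · obtain ⟨r, hr1, hr2⟩ := hG2
      rw [Finset.mem_compl, Finset.mem_union] at hr1
      push Not at hr1
      exact ⟨r, hr2, hr1.1, fun h => absurd h hca⟩
  have htr := tr_subset i k j0 e B0 G hB0
  have htr0 : tr i k j0 e (G ∩ B0) j0 = G ∩ B0 := by simp [tr]
  have htrc : ∀ j, (tr i k j0 e (G ∩ B0) j).card ≤ m := fun j => (Finset.card_le_card (htr j)).trans hB0c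
  have hcompl : (B0 ∪ B1)ᶜ ⊆ B0ᶜ := by
    intro x hx
    rw [Finset.mem_compl, Finset.mem_union] at hx
    rw [Finset.mem_compl]
    exact fun h => hx (Or.inl h)
  let lo : Fin m → Finset α := fun j => tr i k j0 e (G ∩ B0) j ∪ (if j = j0 then univ.image y else
    (B0 ∪ B1)ᶜ ∪ (insert z ((univ.erase j).image y)))
  let hi : Fin m → Finset α := fun j => tr i k j0 e (G ∩ B0) j ∪ (if j = j0 then
    B0ᶜ \ {z} else B0ᶜ \ {y j})
  have hlo0 : lo j0 = (G ∩ B0) ∪ univ.image y := by simp [lo, htr0]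
  have hhi0 : hi j0 = (G ∩ B0) ∪ (B0ᶜ \ {z}) := by simp [hi, htr0]
  have hlo' : ∀ j, j ≠ j0 → lo j = tr i k j0 e (G ∩ B0) j ∪ ((B0 ∪ B1)ᶜ ∪
      (insert z ((univ.erase j).image y))) := fun j hj => by simp [lo, hj]
  have hhi' : ∀ j, j ≠ j0 → hi j = tr i k j0 e (G ∩ B0) j ∪ (B0ᶜ \ {y j}) :=
    fun j hj => by simp [hi, hj]
  have hB1card : ∀ S : Finset α, S.card ≤ m + 1 → c + k + m + 2 ≤ (B1 \ S).card := by
    intro S hS
    have := Finset.le_card_sdiff S B1
    omega
  have himc : (univ.image y).card ≤ m := by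
    have := (Finset.card_image_le (s := (univ : Finset (Fin m))) (f := y))
    simpa using this
  apply core i k c (by omega) hik j0 hj0 e he B0 B1 hB0 hdisj (by omega) G lo hi
  · intro j
    apply union_inter_tr _ _ _ (htr j)
    intro x hx
    split_ifs at hx
    · rw [Finset.mem_image] at hx
      obtain ⟨j', -, rfl⟩ := hx
      exact hyB0 j'
    · rw [Finset.mem_union, Finset.mem_insert, Finset.mem_image] at hx
      rcases hx with hx | hx | ⟨j', -, rfl⟩
      · have := hcompl hx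
        rwa [Finset.mem_compl] at this
      · rw [hx]; exact hzB0
      · exact hyB0 j'
  · intro j
    apply union_inter_tr _ _ _ (htr j)
    intro x hx
    split_ifs at hx
    · rw [Finset.mem_sdiff, Finset.mem_compl] at hx; exact hx.1
    · rw [Finset.mem_sdiff, Finset.mem_compl] at hx; exact hx.1
  · intro j j' hjj hsub
    by_cases hj' : j' = j0
    · subst hj'
      rw [hlo' j hjj, hhi0] at hsub
      have h1 : z ∈ (G ∩ B0) ∪ (B0ᶜ \ {z}) := hsub (by simp)
      rw [Finset.mem_union, Finset.mem_sdiff, Finset.mem_inter] at h1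
      rcases h1 with h1 | h1
      · exact hzG h1.1
      · exact h1.2 (Finset.mem_singleton_self _)
    · rw [hhi' j' hj'] at hsub
      have h2 : y j' ∈ lo j := by
        by_cases hj : j = j0
        · subst hj
          rw [hlo0]
          exact Finset.mem_union_right _ (Finset.mem_image_of_mem _ (Finset.mem_univ _))
        · rw [hlo' j hj]
          apply Finset.mem_union_right
          apply Finset.mem_union_right
          apply Finset.mem_insert_of_mem
          apply Finset.mem_image_of_mem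
          rw [Finset.mem_erase]
          exact ⟨Ne.symm hjj, Finset.mem_univ _⟩
      have h1 := hsub h2
      rw [Finset.mem_union, Finset.mem_sdiff] at h1
      rcases h1 with h1 | h1
      · exact hyB0 j' (htr j' h1)
      · exact h1.2 (Finset.mem_singleton_self _)
  · intro j hj
    apply chain_large
    · rw [hlo' j hj, hhi' j hj]
      apply Finset.union_subset_union (Finset.Subset.refl _)
      intro x hx
      rw [Finset.mem_sdiff, Finset.mem_singleton]
      rw [Finset.mem_union, Finset.mem_insert, Finset.mem_image] at hx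
      rcases hx with hx | hx | ⟨j', hj', hx⟩
      · refine ⟨hcompl hx, ?_⟩
        rintro rfl
        rw [Finset.mem_compl, Finset.mem_union] at hx
        exact hx (Or.inr (hyB1 j))
      · subst hx
        rw [Finset.mem_compl]
        refine ⟨hzB0, ?_⟩
        rintro rfl
        exact hzG (hyG j)
      · subst hx
        rw [Finset.mem_compl]
        refine ⟨hyB0 j', ?_⟩
        intro h
        rw [Finset.mem_erase] at hj'
        exact hj'.1 (hy1 h)
    · rw [hlo' j hj]
      exact Finset.subset_union_left.trans Finset.subset_union_right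
    · rw [hlo' j hj]
      have h1 : (tr i k j0 e (G ∩ B0) j ∪ ((B0 ∪ B1)ᶜ ∪ (insert z ((univ.erase j).image y)))) ∩ (B0 ∪ B1)
          ⊆ tr i k j0 e (G ∩ B0) j ∪ (insert z (univ.image y)) := by
        intro x hx
        rw [Finset.mem_inter, Finset.mem_union, Finset.mem_union, Finset.mem_compl, Finset.mem_insert] at hx
        rw [Finset.mem_union, Finset.mem_insert]
        rcases hx with ⟨hx | hx | hx | hx, hx2⟩
        · exact Or.inl hx
        · exact absurd hx2 hx
        · exact Or.inr (Or.inl hx)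
        · exact Or.inr (Or.inr (Finset.image_subset_image (Finset.subset_univ _) hx))
      have h2 := Finset.card_le_card h1
      have h3 := Finset.card_union_le (tr i k j0 e (G ∩ B0) j) (insert z (univ.image y))
      have h4 := Finset.card_insert_le z (univ.image y)
      have h5 := htrc j
      omega
    · rw [hhi' j hj]
      have h1 : (B1 \ {y j}) ⊆ (tr i k j0 e (G ∩ B0) j ∪ (B0ᶜ \ {y j})) ∩ (B0 ∪ B1) := by
        intro x hx
        rw [Finset.mem_sdiff] at hx
        rw [Finset.mem_inter, Finset.mem_union, Finset.mem_union, Finset.mem_sdiff, Finset.mem_compl]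
        exact ⟨Or.inr ⟨hB1B0 x hx.1, hx.2⟩, Or.inr hx.1⟩
      have h2 := Finset.card_le_card h1
      have h3 := hB1card {y j} (by simp)
      omega
  · have hlo0B : c ≤ (G ∩ (B0 ∪ B1)).card → lo j0 ⊆ B0 ∪ B1 ∧ (lo j0 ∩ (B0 ∪ B1)).card ≤ c := by
      intro _
      rw [hlo0]
      constructor
      · apply Finset.union_subset (Finset.inter_subset_right.trans Finset.subset_union_left)
        intro x hx
        rw [Finset.mem_image] at hx
        obtain ⟨j, -, rfl⟩ := hx
        exact Finset.mem_union_right _ (hyB1 j)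
      · have h1 := Finset.card_le_card (Finset.inter_subset_left :
          ((G ∩ B0) ∪ univ.image y) ∩ (B0 ∪ B1) ⊆ ((G ∩ B0) ∪ univ.image y))
        have h2 := Finset.card_union_le (G ∩ B0) (univ.image y)
        have h3 : (G ∩ B0).card ≤ m := (Finset.card_le_card Finset.inter_subset_right).trans hB0c
        omega
    apply chain_through (B0 ∪ B1) G (lo j0) (hi j0) c k hk hG1 hG2 _ _ hlo0B
    · intro hh
      have hzB1 := hzc hh
      rw [hhi0]
      constructor
      · intro x hx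
        rw [Finset.mem_union, Finset.mem_sdiff, Finset.mem_singleton]
        right
        refine ⟨hcompl hx, ?_⟩
        rintro rfl
        rw [Finset.mem_compl, Finset.mem_union] at hx
        exact hx (Or.inr hzB1)
      · have h1 : (B1 \ {z}) ⊆ ((G ∩ B0) ∪ (B0ᶜ \ {z})) ∩ (B0 ∪ B1) := by
          intro x hx
          rw [Finset.mem_sdiff] at hx
          rw [Finset.mem_inter, Finset.mem_union, Finset.mem_union, Finset.mem_sdiff, Finset.mem_compl]
          exact ⟨Or.inr ⟨hB1B0 x hx.1, hx.2⟩, Or.inr hx.1⟩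
        have h2 := Finset.card_le_card h1
        have h3 := hB1card {z} (by simp)
        omega
    · rw [hlo0]
      apply Finset.union_subset Finset.inter_subset_left
      intro x hx
      rw [Finset.mem_image] at hx
      obtain ⟨j, -, rfl⟩ := hx
      exact hyG j
    · rw [hhi0]
      intro x hx
      rw [Finset.mem_union, Finset.mem_inter, Finset.mem_sdiff, Finset.mem_compl, Finset.mem_singleton]
      by_cases hxB : x ∈ B0
      · exact Or.inl ⟨hx, hxB⟩
      · right
        refine ⟨hxB, ?_⟩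
        rintro rfl
        exact hzG hx


end general

section main

lemma contains_iff {P : Type} [PartialOrder P] {n : ℕ} (𝓕 : Finset (Finset (Fin n))) :
    ContainsInducedCopy P 𝓕 ↔
      ∃ f : P → Finset (Fin n), (∀ p q, p ≤ q ↔ f p ⊆ f q) ∧ ∀ p, f p ∈ 𝓕 := by
  classical
  constructor
  · rintro ⟨𝒢, h𝒢, b, hb⟩
    exact ⟨fun p => b p, hb, fun p => h𝒢 (b p).2⟩
  · rintro ⟨f, hf, hmem⟩
    have hinj : Function.Injective f := by
      intro p q hpq
      apply le_antisymm
      · rw [hf, hpq]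
      · rw [hf, hpq]
    have hfin : (Set.range f).Finite := Set.toFinite _
    refine ⟨hfin.toFinset, ?_, (Equiv.ofInjective f hinj).trans
      (Equiv.subtypeEquivRight (fun x => by simp)), ?_⟩
    · intro x hx
      rw [Set.Finite.mem_toFinset] at hx
      obtain ⟨p, rfl⟩ := hx
      exact hmem p
    · intro p q
      exact hf p q

lemma contains_mono {P : Type} [LE P] {n : ℕ} {𝓕 𝓖 : Finset (Finset (Fin n))} (h : 𝓕 ⊆ 𝓖)
    (h1 : ContainsInducedCopy P 𝓕) : ContainsInducedCopy P 𝓖 := by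
  obtain ⟨𝒢, h2, h3⟩ := h1
  exact ⟨𝒢, h2.trans h, h3⟩

/-- a copy-free family extends to a saturated one -/
lemma exists_saturated {P : Type} [LE P] {n : ℕ} (𝓕 : Finset (Finset (Fin n)))
    (h : ¬ ContainsInducedCopy P 𝓕) :
    ∃ 𝓖 : Finset (Finset (Fin n)), 𝓕 ⊆ 𝓖 ∧ InducedSaturated P 𝓖 := by
  obtain ⟨𝓖, h1, h2⟩ := Finite.exists_le_maximal (p := fun 𝓖 : Finset (Finset (Fin n)) =>
    ¬ ContainsInducedCopy P 𝓖) h
  refine ⟨𝓖, h1, h2.1, fun G hG => ?_⟩
  by_contra hcon
  have := h2.2 hcon (Finset.subset_insert _ _)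
  exact hG (this (Finset.mem_insert_self _ _))

/-- boundedness in terms of saturated families, for lengths in any order -/
theorem bounded_families {m : ℕ} (i : Fin m → ℕ) (hpos : ∀ j, 0 < i j) (j0 j1 : Fin m)
    (hmax : ∀ j, i j ≤ i j0) (hlt : i j1 < i j0) :
    ∃ C : ℕ, ∀ n : ℕ, ∃ 𝓕 : Finset (Finset (Fin n)),
      InducedSaturated (Σ j : Fin m, Fin (i j)) 𝓕 ∧ 𝓕.card ≤ C := by
  classical
  obtain ⟨k, hk⟩ : ∃ k, k = i j0 := ⟨_, rfl⟩
  have hk1 : 1 ≤ k := by have := hpos j0; omega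
  obtain ⟨c, hc⟩ : ∃ c, c = 2 * m + 3 := ⟨_, rfl⟩
  obtain ⟨b1, hb1⟩ : ∃ b1, b1 = c + k + 2 * m + 3 := ⟨_, rfl⟩
  refine ⟨2 ^ (m + b1 + 1), fun n => ?_⟩
  by_cases hn : n ≤ m + b1
  · -- small ground set
    have hempty : ¬ ContainsInducedCopy (Σ j : Fin m, Fin (i j)) (∅ : Finset (Finset (Fin n))) := by
      rw [contains_iff]
      rintro ⟨f, -, h⟩
      exact absurd (h ⟨j0, ⟨0, hpos j0⟩⟩) (Finset.notMem_empty _)
    obtain ⟨𝓕, -, h𝓕⟩ := exists_saturated _ hempty
    refine ⟨𝓕, h𝓕, ?_⟩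
    calc 𝓕.card ≤ Fintype.card (Finset (Fin n)) := Finset.card_le_univ _
      _ = 2 ^ n := by simp
      _ ≤ 2 ^ (m + b1 + 1) := Nat.pow_le_pow_right (by norm_num) (by omega)
  · push Not at hn
    let e : Fin m → Fin n := fun j => ⟨j.1, by omega⟩
    have he : Function.Injective e := by
      intro a b hab
      simp only [e, Fin.mk.injEq] at hab
      exact Fin.ext hab
    let K' : Finset (Fin m) := univ.filter (fun j => i j = k ∧ j ≠ j0)
    let B0 : Finset (Fin n) := K'.image e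
    let B1 : Finset (Fin n) := univ.filter (fun x => m ≤ x.1 ∧ x.1 < m + b1)
    have hB0 : ∀ x, x ∈ B0 ↔ ∃ j, (i j = k ∧ j ≠ j0) ∧ e j = x := by
      intro x
      simp [B0, K']
    have hdisj : Disjoint B0 B1 := by
      rw [Finset.disjoint_left]
      intro x hx hx1
      rw [hB0] at hx
      obtain ⟨j, -, rfl⟩ := hx
      simp only [B1, Finset.mem_filter, e] at hx1
      omega
    have hB1card : B1.card = b1 := by
      have : B1 = (univ : Finset (Fin b1)).image (fun t : Fin b1 => (⟨m + t.1, by omega⟩ : Fin n)) := by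
        ext x
        simp only [B1, Finset.mem_filter, Finset.mem_univ, true_and, Finset.mem_image]
        constructor
        · rintro ⟨h1, h2⟩
          exact ⟨⟨x.1 - m, by omega⟩, Fin.ext (by simp only; omega)⟩
        · rintro ⟨t, rfl⟩
          simp
      rw [this, Finset.card_image_of_injective]
      · simp
      · intro a b hab
        simp only [Fin.mk.injEq] at hab
        exact Fin.ext (by omega)
    have hB0card : B0.card = K'.card := Finset.card_image_of_injective _ he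
    have hB0c : B0.card ≤ m := by
      rw [hB0card]
      refine (Finset.card_le_univ _).trans ?_
      simp
    have hR : ((B0 ∪ B1)ᶜ : Finset (Fin n)).Nonempty := by
      refine ⟨⟨m + b1, hn⟩, ?_⟩
      rw [Finset.mem_compl, Finset.mem_union, hB0]
      rintro (⟨j, -, hj⟩ | h)
      · simp only [e, Fin.mk.injEq] at hj
        omega
      · simp only [B1, Finset.mem_filter] at h
        omega
    have hfree : ¬ ContainsInducedCopy (Σ j : Fin m, Fin (i j))
        (Fh (B0 ∪ B1) c k ∪ Fw B0 : Finset (Finset (Fin n))) := by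
      rw [contains_iff]
      rintro ⟨f, hf, hmem⟩
      refine pfree i k c hk1 B0 (B0 ∪ B1) hR (insert j0 K') ?_ ?_ j1 ?_ (hpos j1) f hf hmem
      · intro j hj
        rw [Finset.mem_insert] at hj
        rcases hj with rfl | hj
        · exact hk.symm
        · simp only [K', Finset.mem_filter] at hj
          exact hj.2.1
      · rw [hB0card, Finset.card_insert_of_notMem]
        simp [K']
      · intro h
        rw [Finset.mem_insert] at h
        rcases h with rfl | h
        · omega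
        · simp only [K', Finset.mem_filter] at h
          omega
    obtain ⟨𝓕, h𝓕1, h𝓕2⟩ := exists_saturated _ hfree
    refine ⟨𝓕, h𝓕2, ?_⟩
    -- members of 𝓕 do not split the rest
    have htriv : ∀ F ∈ 𝓕, F ⊆ B0 ∪ B1 ∨ (B0 ∪ B1)ᶜ ⊆ F := by
      intro G hG
      by_contra hcon
      push Not at hcon
      obtain ⟨hc1, hc2⟩ := hcon
      have hG1 : ∃ r ∈ ((B0 ∪ B1)ᶜ : Finset (Fin n)), r ∈ G := by
        rw [Finset.not_subset] at hc1
        obtain ⟨r, h1, h2⟩ := hc1
        exact ⟨r, by rw [Finset.mem_compl]; exact h2, h1⟩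
      have hG2 : ∃ r ∈ ((B0 ∪ B1)ᶜ : Finset (Fin n)), r ∉ G := by
        rw [Finset.not_subset] at hc2
        exact hc2
      have hcr : ∃ f : (Σ j : Fin m, Fin (i j)) → Finset (Fin n), (∀ p q, p ≤ q ↔ f p ⊆ f q) ∧
          ∀ p, f p ∈ insert G (Fh (B0 ∪ B1) c k ∪ Fw B0) := by
        by_cases hsm : m ≤ (B1 \ G).card
        · exact creates_small i k c hk1 hc (fun j => by rw [hk]; exact hmax j) j0 hk.symm e he B0 B1
            hB0 hB0c hdisj (by omega) G hG1 hG2 hsm
        · have h1 := Finset.card_sdiff_add_card_inter B1 G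
          exact creates_large i k c hk1 hc (fun j => by rw [hk]; exact hmax j) j0 hk.symm e he B0 B1
            hB0 hB0c hdisj (by omega) G hG1 hG2 (by omega)
      apply h𝓕2.1
      apply contains_mono (𝓕 := insert G (Fh (B0 ∪ B1) c k ∪ Fw B0))
      · exact Finset.insert_subset hG h𝓕1
      · rw [contains_iff]
        exact hcr
    have hsub : 𝓕 ⊆ (B0 ∪ B1).powerset ∪ ((B0 ∪ B1).powerset).image (fun A => A ∪ (B0 ∪ B1)ᶜ) := by
      intro F hF
      rw [Finset.mem_union, Finset.mem_powerset, Finset.mem_image]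
      rcases htriv F hF with h | h
      · exact Or.inl h
      · right
        refine ⟨F ∩ (B0 ∪ B1), ?_, ?_⟩
        · rw [Finset.mem_powerset]; exact Finset.inter_subset_right
        · ext x
          rw [Finset.mem_union, Finset.mem_inter, Finset.mem_compl]
          constructor
          · rintro (h1 | h1)
            · exact h1.1
            · exact h (by rw [Finset.mem_compl]; exact h1)
          · intro h1
            by_cases h2 : x ∈ B0 ∪ B1
            · exact Or.inl ⟨h1, h2⟩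
            · exact Or.inr h2
    have hBcard : (B0 ∪ B1).card ≤ m + b1 := by
      have := Finset.card_union_le B0 B1
      omega
    calc 𝓕.card ≤ ((B0 ∪ B1).powerset ∪
          ((B0 ∪ B1).powerset).image (fun A => A ∪ (B0 ∪ B1)ᶜ)).card := Finset.card_le_card hsub
      _ ≤ ((B0 ∪ B1).powerset).card +
          (((B0 ∪ B1).powerset).image (fun A => A ∪ (B0 ∪ B1)ᶜ)).card := Finset.card_union_le _ _
      _ ≤ ((B0 ∪ B1).powerset).card + ((B0 ∪ B1).powerset).card :=
          Nat.add_le_add_left Finset.card_image_le _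
      _ = 2 ^ ((B0 ∪ B1).card + 1) := by rw [Finset.card_powerset, pow_succ]; ring
      _ ≤ 2 ^ (m + b1 + 1) := Nat.pow_le_pow_right (by norm_num) (by omega)

end main

/-- **Full answer to Q1 (positive).**  For all positive integers `i_0 ≥ i_1 ≥ ... ≥ i_m` with
`i_0 > i_m` there is a constant `C` such that `sat*(n, C_{i_0} + ... + C_{i_m}) ≤ C` for every `n`
(and the minimum defining `sat*` is attained, so the bound is not an artefact of `sInf ∅ = 0`).
The poset `C_{i_0} + ... + C_{i_m}` is `Σ j, Fin (i j)` with the disjoint sum order of Mathlib. -/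
theorem result (m : ℕ) (i : Fin (m + 1) → ℕ) (hpos : ∀ j, 0 < i j) (hanti : Antitone i)
    (hlt : i (Fin.last m) < i 0) :
    ∃ C : ℕ, ∀ n : ℕ,
      (∃ 𝓕 : Finset (Finset (Fin n)), InducedSaturated (Σ j : Fin (m + 1), Fin (i j)) 𝓕 ∧
        𝓕.card = satStar n (Σ j : Fin (m + 1), Fin (i j))) ∧
      satStar n (Σ j : Fin (m + 1), Fin (i j)) ≤ C := by
  obtain ⟨C, hC⟩ := bounded_families i hpos 0 (Fin.last m) (fun j => hanti (Fin.zero_le j)) hlt
  refine ⟨C, fun n => ?_⟩
  obtain ⟨𝓕, h1, h2⟩ := hC n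
  have hmem : 𝓕.card ∈ {s : ℕ | ∃ 𝓕 : Finset (Finset (Fin n)),
      InducedSaturated (Σ j : Fin (m + 1), Fin (i j)) 𝓕 ∧ 𝓕.card = s} := ⟨𝓕, h1, rfl⟩
  have hne : {s : ℕ | ∃ 𝓕 : Finset (Finset (Fin n)),
      InducedSaturated (Σ j : Fin (m + 1), Fin (i j)) 𝓕 ∧ 𝓕.card = s}.Nonempty := ⟨_, hmem⟩
  exact ⟨Nat.sInf_mem hne, (Nat.sInf_le hmem).trans h2⟩

end Pool.Agent.Results.MP_80cf42_co.UnequalChains
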